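import Pool.Agent.Lib_helper52.EPS.Defs

set_option autoImplicit false

namespace Pool.Agent.EPS

open MeasureTheory Set Filter Topology

variable {G : Type*} [MeasureSpace G] [TopologicalSpace G] [AddCommGroup G]
  [IsTopologicalAddGroup G] [BorelSpace G] [SecondCountableTopology G] [LocallyCompactSpace G]
  [T2Space G] [(volume : Measure G).IsAddHaarMeasure]

omit [IsTopologicalAddGroup G] [BorelSpace G] [SecondCountableTopology G]
  [LocallyCompactSpace G] [T2Space G] in
/-- bounded measurable functions which vanish off a compact set are integrable -/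
theorem c0_int {w : G → ℝ} (hm : Measurable w) {M : ℝ} (hM : ∀ x, |w x| ≤ M) {K : Set G}
    (hK : IsCompact K) (h0 : ∀ x, x ∉ K → w x = 0) : Integrable w := by
  have h1 : IntegrableOn w K := by
    refine Measure.integrableOn_of_bounded (M := M) hK.measure_lt_top.ne
      hm.aestronglyMeasurable ?_
    exact Eventually.of_forall fun x => by rw [Real.norm_eq_abs]; exact hM x
  refine (integrableOn_iff_integrable_of_support_subset ?_).1 h1
  intro x hx
  by_contra hxK
  exact hx (h0 x hxK)

/-- the sum of two compact sets -/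
def c0_sum (K K' : Set G) : Set G := (fun p : G × G => p.1 + p.2) '' (K ×ˢ K')

omit [MeasureSpace G] [BorelSpace G] [SecondCountableTopology G] [LocallyCompactSpace G]
  [T2Space G] [(volume : Measure G).IsAddHaarMeasure] in
theorem c0_sum_compact {K K' : Set G} (hK : IsCompact K) (hK' : IsCompact K') :
    IsCompact (c0_sum K K') :=
  (hK.prod hK').image continuous_add

omit [MeasureSpace G] [TopologicalSpace G] [IsTopologicalAddGroup G] [BorelSpace G]
  [SecondCountableTopology G] [LocallyCompactSpace G] [T2Space G]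
  [(volume : Measure G).IsAddHaarMeasure] in
theorem c0_mem_sum {K K' : Set G} {x t : G} (h : x ∈ K) (h' : t - x ∈ K') : t ∈ c0_sum K K' :=
  ⟨(x, t - x), ⟨h, h'⟩, add_sub_cancel x t⟩

theorem bdc_int {u : G → ℝ} (h : Bdc u) : Integrable u := by
  obtain ⟨M, hM⟩ := h.bd
  obtain ⟨K, hK, h0⟩ := h.supp
  exact c0_int h.meas (fun x => by rw [abs_of_nonneg (h.nn x)]; exact hM x) hK h0

theorem bdc_ent {u : G → ℝ} (h : Bdc u) : Integrable (fun x => Real.negMulLog (u x)) := by
  obtain ⟨M, hM⟩ := h.bd
  obtain ⟨K, hK, h0⟩ := h.supp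
  obtain ⟨C, hC⟩ := (isCompact_Icc (a := (0 : ℝ)) (b := M)).exists_bound_of_continuousOn
    Real.continuous_negMulLog.continuousOn
  refine c0_int (M := C) (Real.continuous_negMulLog.measurable.comp h.meas) ?_ hK ?_
  · intro x
    exact hC (u x) ⟨h.nn x, hM x⟩
  · intro x hx
    rw [h0 x hx, Real.negMulLog_zero]

/-- the integrand of the convolution -/
theorem c0_cv_int {u v : G → ℝ} (hu : Bdc u) (hv : Bdc v) (t : G) :
    Integrable (fun x => u x * v (t - x)) := by
  obtain ⟨M, hM⟩ := hu.bd
  obtain ⟨M', hM'⟩ := hv.bd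
  obtain ⟨K, hK, h0⟩ := hu.supp
  refine c0_int (M := M * M') (hu.meas.mul (hv.meas.comp (measurable_const.sub measurable_id)))
    ?_ hK ?_
  · intro x
    rw [abs_of_nonneg (mul_nonneg (hu.nn x) (hv.nn _))]
    exact mul_le_mul (hM x) (hM' _) (hv.nn _) ((hu.nn x).trans (hM x))
  · intro x hx
    rw [h0 x hx, zero_mul]

theorem bdc_cv {u v : G → ℝ} (hu : Bdc u) (hv : Bdc v) : Bdc (cv u v) := by
  obtain ⟨M', hM'⟩ := hv.bd
  obtain ⟨K, hK, h0⟩ := hu.supp
  obtain ⟨K', hK', h0'⟩ := hv.supp
  refine ⟨?_, ?_, ⟨(∫ x, u x) * M', ?_⟩, ⟨c0_sum K K', c0_sum_compact hK hK', ?_⟩⟩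
  · have h1 : Measurable (Function.uncurry fun (t x : G) => u x * v (t - x)) :=
      (hu.meas.comp measurable_snd).mul (hv.meas.comp (measurable_fst.sub measurable_snd))
    exact (h1.stronglyMeasurable.integral_prod_right (ν := (volume : Measure G))).measurable
  · intro t
    exact integral_nonneg fun x => mul_nonneg (hu.nn x) (hv.nn _)
  · intro t
    unfold cv
    rw [← integral_mul_const]
    refine integral_mono (c0_cv_int hu hv t) ((bdc_int hu).mul_const M') ?_
    intro x
    exact mul_le_mul_of_nonneg_left (hM' _) (hu.nn x)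
  · intro t ht
    unfold cv
    have h1 : (fun x => u x * v (t - x)) = fun _ => (0 : ℝ) := by
      funext x
      by_cases hx : x ∈ K
      · have h2 : t - x ∉ K' := by
          intro h3
          exact ht (c0_mem_sum hx h3)
        rw [h0' _ h2, mul_zero]
      · rw [h0 x hx, zero_mul]
    rw [h1, integral_zero]

theorem cv_mass {u v : G → ℝ} (hu : Bdc u) (hv : Bdc v) :
    ∫ t, cv u v t = (∫ x, u x) * ∫ x, v x := by
  obtain ⟨M, hM⟩ := hu.bd
  obtain ⟨M', hM'⟩ := hv.bd
  obtain ⟨K, hK, h0⟩ := hu.supp
  obtain ⟨K', hK', h0'⟩ := hv.supp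
  have h1 : Measurable (Function.uncurry fun (t x : G) => u x * v (t - x)) :=
    (hu.meas.comp measurable_snd).mul (hv.meas.comp (measurable_fst.sub measurable_snd))
  have h2 : Integrable (Function.uncurry fun (t x : G) => u x * v (t - x))
      ((volume : Measure G).prod volume) := by
    have h3 : Integrable (Function.uncurry fun (t x : G) => u x * v (t - x))
        (volume : Measure (G × G)) := by
      refine c0_int (M := M * M') (K := (c0_sum K K') ×ˢ K) h1 ?_ ((c0_sum_compact hK hK').prod hK) ?_
      · rintro ⟨t, x⟩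
        change |u x * v (t - x)| ≤ _
        rw [abs_of_nonneg (mul_nonneg (hu.nn x) (hv.nn _))]
        exact mul_le_mul (hM x) (hM' _) (hv.nn _) ((hu.nn x).trans (hM x))
      · rintro ⟨t, x⟩ hx
        change u x * v (t - x) = 0
        by_cases hxK : x ∈ K
        · have h4 : t - x ∉ K' := by
            intro h3
            exact hx ⟨c0_mem_sum hxK h3, hxK⟩
          rw [h0' _ h4, mul_zero]
        · rw [h0 x hxK, zero_mul]
    rwa [Measure.volume_eq_prod] at h3
  unfold cv
  rw [integral_integral_swap h2, ← integral_mul_const]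
  congr 1
  funext x
  rw [integral_const_mul]
  congr 1
  exact integral_sub_right_eq_self v x

end Pool.Agent.EPS
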