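import Pool.Agent.Lib_helper52.EPS.Defs
import Pool.Agent.Lib_helper89.EPS.A0
import Pool.Agent.Lib_helper33.EPS.A3
import Pool.Agent.Lib_helper2.EPS.A5
import Pool.Agent.Lib_helper73.EPS.C0
set_option autoImplicit false

namespace Pool.Agent.EPS

open MeasureTheory Set Filter Topology

/-- a property valid almost everywhere holds at `T x` for almost every `x` -/
theorem a6_ae {a b m M : ℝ} {f T : ℝ → ℝ} (hf : Nice a b m M f) (hT : Tr a b f T) {P : ℝ → Prop}
    (hP : ∀ᵐ w : ℝ, P w) : ∀ᵐ x : ℝ, P (T x) := by
  classical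
  set k : ℝ → ℝ := fun w => if P w then 0 else 1 with hk
  have hk0 : ∀ w, 0 ≤ k w := by
    intro w
    rw [hk]
    dsimp only
    split_ifs <;> norm_num
  have h1 : (fun y => k y * f y) =ᵐ[volume] fun _ => (0 : ℝ) := by
    filter_upwards [hP] with w hw
    rw [hk]
    simp [hw]
  have h2 : Integrable (fun y => k y * f y) := (integrable_zero ℝ ℝ volume).congr h1.symm
  have h3 := tr_integral hf hT k
  have h4 : Integrable (fun x => k (T x) * ga x) := h3.1.1 h2
  have h5 : ∫ x, k (T x) * ga x = 0 := by
    rw [← h3.2]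
    exact integral_eq_zero_of_ae h1
  have h6 := (integral_eq_zero_iff_of_nonneg (fun x => mul_nonneg (hk0 (T x)) (ga_pos x).le) h4).1 h5
  filter_upwards [h6] with x hx
  have h7 : k (T x) = 0 := (mul_eq_zero.1 hx).resolve_right (ga_pos x).ne'
  by_contra hPx
  rw [hk] at h7
  simp [hPx] at h7

/-- the law of `T(X) + U(Y)` -/
theorem law_sum {a b m M a' b' m' M' : ℝ} {f g T U : ℝ → ℝ} (hf : Nice a b m M f)
    (hg : Nice a' b' m' M' g) (hT : Tr a b f T) (hU : Tr a' b' g U) (h : ℝ → ℝ)
    (hm : Measurable h) (hi : Integrable (fun t => cv f g t * h t)) :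
    Integrable (fun p : ℝ × ℝ => h (T p.1 + U p.2) * (ga p.1 * ga p.2)) ∧
      ∫ p : ℝ × ℝ, h (T p.1 + U p.2) * (ga p.1 * ga p.2) = ∫ t, cv f g t * h t := by
  have hfb := nice_bdc hf
  have hgb := nice_bdc hg
  obtain ⟨C, hC⟩ := hgb.bd
  set Φ : ℝ × ℝ → ℝ := fun p => f p.1 * g (p.2 - p.1) * h p.2 with hΦdef
  have hΦm : Measurable Φ := ((hfb.meas.comp measurable_fst).mul
    (hgb.meas.comp (measurable_snd.sub measurable_fst))).mul (hm.comp measurable_snd)
  have hcvint : ∀ t : ℝ, Integrable (fun w => f w * g (t - w)) := by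
    intro t
    refine ((bdc_int hfb).mul_const C).mono'
      (hfb.meas.mul (hgb.meas.comp (measurable_const.sub measurable_id))).aestronglyMeasurable ?_
    refine Eventually.of_forall fun w => ?_
    rw [Real.norm_eq_abs, abs_of_nonneg (mul_nonneg (hfb.nn w) (hgb.nn _))]
    exact mul_le_mul_of_nonneg_left (hC _) (hfb.nn w)
  have hin : ∀ t, ∫ w, Φ (w, t) = cv f g t * h t := by
    intro t
    exact integral_mul_const (h t) (fun w => f w * g (t - w))
  have hΦ : Integrable Φ ((volume : Measure ℝ).prod volume) := by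
    rw [integrable_prod_iff' hΦm.aestronglyMeasurable]
    constructor
    · exact Eventually.of_forall fun t => (hcvint t).mul_const (h t)
    · have h1 : (fun t => ∫ w, ‖Φ (w, t)‖) = fun t => |cv f g t * h t| := by
        funext t
        have h2 : ∀ w, ‖Φ (w, t)‖ = f w * g (t - w) * |h t| := by
          intro w
          change |f w * g (t - w) * h t| = _
          rw [abs_mul, abs_of_nonneg (mul_nonneg (hfb.nn w) (hgb.nn _))]
        simp only [h2]
        rw [integral_mul_const]
        change cv f g t * |h t| = _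
        rw [abs_mul, abs_of_nonneg ((bdc_cv hfb hgb).nn t)]
      rw [h1]
      exact hi.abs
  -- the slices
  have hN : ∀ᵐ w : ℝ, f w ≠ 0 → Integrable (fun z => h (w + z) * g z) := by
    filter_upwards [hΦ.prod_right_ae] with w hw hfw
    have h1 := (hw.comp_add_right w).const_mul (f w)⁻¹
    refine h1.congr (Eventually.of_forall fun z => ?_)
    change (f w)⁻¹ * (f w * g (z + w - w) * h (z + w)) = h (w + z) * g z
    rw [add_sub_cancel_right, add_comm z w]
    field_simp
  have hNT : ∀ᵐ x : ℝ, Integrable (fun z => h (T x + z) * g z) := by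
    filter_upwards [a6_ae hf hT hN] with x hx
    apply hx
    have h1 := hf.lo (T x) ⟨(hT.mem x).1.le, (hT.mem x).2.le⟩
    exact (hf.m0.trans_le h1).ne'
  have hint1 : ∀ᵐ x : ℝ, Integrable (fun y => h (T x + U y) * ga y) := by
    filter_upwards [hNT] with x hx
    exact (tr_integral hg hU (fun z => h (T x + z))).1.1 hx
  -- inner integrals
  have hshift : ∀ (F : ℝ → ℝ) (w : ℝ), ∫ t, F (t - w) = ∫ z, F z := fun F w =>
    integral_sub_right_eq_self F w
  have hin1 : ∀ w, ∫ t, Φ (w, t) = (∫ z, h (w + z) * g z) * f w := by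
    intro w
    rw [← integral_mul_const, ← hshift (fun z => h (w + z) * g z * f w) w]
    congr 1
    funext t
    change f w * g (t - w) * h t = h (w + (t - w)) * g (t - w) * f w
    rw [add_sub_cancel]
    ring
  have hin2 : ∀ w, ∫ t, ‖Φ (w, t)‖ = (∫ z, |h (w + z)| * g z) * f w := by
    intro w
    rw [← integral_mul_const, ← hshift (fun z => |h (w + z)| * g z * f w) w]
    congr 1
    funext t
    change |f w * g (t - w) * h t| = |h (w + (t - w))| * g (t - w) * f w
    rw [add_sub_cancel, abs_mul, abs_of_nonneg (mul_nonneg (hfb.nn w) (hgb.nn _))]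
    ring
  have hk1 : Integrable (fun w => (∫ z, |h (w + z)| * g z) * f w) := by
    have h1 := hΦ.integral_norm_prod_left
    refine h1.congr (Eventually.of_forall fun w => ?_)
    exact hin2 w
  have hk2 := (tr_integral hf hT (fun w => ∫ z, |h (w + z)| * g z)).1.1 hk1
  have hTc := (tr_cont hf hT).2.1
  have hUc := (tr_cont hg hU).2.1
  have hFm : Measurable (fun p : ℝ × ℝ => h (T p.1 + U p.2) * (ga p.1 * ga p.2)) :=
    (hm.comp ((hTc.measurable.comp measurable_fst).add (hUc.measurable.comp measurable_snd))).mul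
      ((ga_cont.measurable.comp measurable_fst).mul (ga_cont.measurable.comp measurable_snd))
  have hF : Integrable (fun p : ℝ × ℝ => h (T p.1 + U p.2) * (ga p.1 * ga p.2))
      ((volume : Measure ℝ).prod volume) := by
    rw [integrable_prod_iff hFm.aestronglyMeasurable]
    constructor
    · filter_upwards [hint1] with x hx
      refine (hx.mul_const (ga x)).congr (Eventually.of_forall fun y => ?_)
      change h (T x + U y) * ga y * ga x = h (T x + U y) * (ga x * ga y)
      ring
    · refine hk2.congr (Eventually.of_forall fun x => ?_)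
      change (∫ z, |h (T x + z)| * g z) * ga x = ∫ y, ‖h (T x + U y) * (ga x * ga y)‖
      rw [(tr_integral hg hU (fun z => |h (T x + z)|)).2, ← integral_mul_const]
      congr 1
      funext y
      rw [Real.norm_eq_abs, abs_mul, abs_of_pos (mul_pos (ga_pos x) (ga_pos y))]
      ring
  refine ⟨by rw [Measure.volume_eq_prod]; exact hF, ?_⟩
  rw [Measure.volume_eq_prod, integral_prod _ hF]
  have h1 : ∀ x, ∫ y, h (T x + U y) * (ga x * ga y) = (∫ z, h (T x + z) * g z) * ga x := by
    intro x
    rw [(tr_integral hg hU (fun z => h (T x + z))).2, ← integral_mul_const]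
    congr 1
    funext y
    ring
  simp only [h1]
  rw [← (tr_integral hf hT (fun w => ∫ z, h (w + z) * g z)).2]
  simp only [← hin1]
  rw [integral_integral_swap (f := fun w t => Φ (w, t)) hΦ]
  simp only [hin]

end Pool.Agent.EPS
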