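import Pool.Agent.Lib_helper52.EPS.Defs
import Pool.Agent.Lib_helper33.EPS.GI
import Pool.Agent.Lib_helper73.EPS.C0
import Pool.Agent.Lib_helper83.EPS.C1
set_option autoImplicit false

namespace Pool.Agent.EPS

open MeasureTheory Set Filter Topology

variable {G : Type*} [MeasureSpace G] [TopologicalSpace G] [AddCommGroup G]
  [IsTopologicalAddGroup G] [BorelSpace G] [SecondCountableTopology G] [LocallyCompactSpace G]
  [T2Space G] [(volume : Measure G).IsAddHaarMeasure]
variable {H : Type*} [MeasureSpace H] [TopologicalSpace H] [AddCommGroup H]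
  [IsTopologicalAddGroup H] [BorelSpace H] [SecondCountableTopology H] [LocallyCompactSpace H]
  [T2Space H] [(volume : Measure H).IsAddHaarMeasure]

omit [(volume : Measure G).IsAddHaarMeasure] [(volume : Measure H).IsAddHaarMeasure] in
theorem c3_swap {U : G × H → ℝ} (hU : Bdc U) : Bdc (fun p : H × G => U (p.2, p.1)) := by
  obtain ⟨M, hM⟩ := hU.bd
  obtain ⟨K, hK, h0⟩ := hU.supp
  refine ⟨hU.meas.comp measurable_swap, fun p => hU.nn _, ⟨M, fun p => hM _⟩,
    ⟨Prod.swap '' K, hK.image continuous_swap, ?_⟩⟩
  intro p hp
  apply h0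
  intro h
  exact hp ⟨(p.2, p.1), h, rfl⟩

/-- division by a positive constant -/
theorem c3_div {u : H → ℝ} (hu : Bdc u) {M : ℝ} (hM : 0 < M) : Bdc (fun w => u w / M) := by
  obtain ⟨C, hC⟩ := hu.bd
  obtain ⟨K, hK, h0⟩ := hu.supp
  refine ⟨hu.meas.div_const M, fun x => div_nonneg (hu.nn x) hM.le,
    ⟨C / M, fun x => div_le_div_of_nonneg_right (hC x) hM.le⟩, ⟨K, hK, ?_⟩⟩
  intro x hx
  rw [h0 x hx, zero_div]

/-- a nonnegative function with integral zero -/
theorem c3_zero {u : H → ℝ} (hu : Bdc u) (h : ∫ w, u w = 0) : u =ᵐ[volume] 0 :=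
  (integral_eq_zero_iff_of_nonneg hu.nn (bdc_int hu)).1 h

theorem c3_KK_zero {u : H → ℝ} (hu : Bdc u) (h : ∫ w, u w = 0) : KK u = 0 := by
  have h1 := c3_zero hu h
  unfold KK
  rw [h, Real.negMulLog_zero, sub_zero]
  apply integral_eq_zero_of_ae
  filter_upwards [h1] with w hw
  rw [hw]
  simp

/-- superadditivity of the homogeneous entropy -/
theorem jensen {U : G × H → ℝ} (hU : Bdc U) :
    ∫ x, KK (fun w => U (x, w)) ≤ KK (fun w => ∫ x, U (x, w)) := by
  have hS := c3_swap hU
  set A : H → ℝ := fun w => ∫ x, U (x, w) with hAdef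
  have hA : Bdc A := bdc_marg hS
  have hm : Bdc (fun x => ∫ w, U (x, w)) := bdc_marg hU
  have hmass : ∫ w, A w = ∫ x, ∫ w, U (x, w) := by
    rw [marg_mass hU]
    have h1 := marg_mass hS
    have h2 : ∫ p : H × G, U (p.2, p.1) = ∫ p : G × H, U p := by
      rw [Measure.volume_eq_prod, Measure.volume_eq_prod]
      exact integral_prod_swap (μ := (volume : Measure G)) (ν := (volume : Measure H)) U
    rw [← h2, ← h1]
  set M : ℝ := ∫ w, A w with hMdef
  have hM0 : 0 ≤ M := integral_nonneg hA.nn
  rcases hM0.eq_or_lt with hM | hM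
  · rw [c3_KK_zero hA hM.symm]
    have h1 := c3_zero hm (hmass ▸ hM.symm)
    apply le_of_eq
    apply integral_eq_zero_of_ae
    filter_upwards [h1] with x hx
    exact c3_KK_zero (bdc_slice hU x) hx
  · set s : H → ℝ := fun w => A w / M with hsdef
    have hs : Bdc s := c3_div hA hM
    have hs1 : ∫ w, s w = 1 := by
      rw [hsdef, integral_div]
      exact div_self hM.ne'
    -- the function `U (x, w) log (s w)` is integrable on the product
    set F : G × H → ℝ := fun p => U p * Real.log (s p.2) with hFdef
    have hFm : Measurable F := hU.meas.mul (Real.measurable_log.comp (hs.meas.comp measurable_snd))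
    have hent := bdc_ent hs
    have hsl : ∀ w, s w * Real.log (s w) = -Real.negMulLog (s w) := by
      intro w
      rw [Real.negMulLog]
      ring
    have hAs : ∀ w, A w = M * s w := by
      intro w
      rw [hsdef]
      field_simp
    have hinner : ∀ w, ∫ x, F (x, w) = A w * Real.log (s w) := by
      intro w
      exact integral_mul_const (Real.log (s w)) (fun x => U (x, w))
    have hAl : ∀ w, A w * Real.log (s w) = -(M * Real.negMulLog (s w)) := by
      intro w
      rw [hAs, mul_assoc, hsl]
      ring
    have hF : Integrable F ((volume : Measure G).prod volume) := by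
      rw [integrable_prod_iff' hFm.aestronglyMeasurable]
      constructor
      · refine Eventually.of_forall fun w => ?_
        exact (bdc_int (bdc_slice hS w)).mul_const (Real.log (s w))
      · have h1 : (fun w => ∫ x, ‖F (x, w)‖) = fun w => M * |Real.negMulLog (s w)| := by
          funext w
          have h2 : ∀ x, ‖F (x, w)‖ = U (x, w) * |Real.log (s w)| := by
            intro x
            change |U (x, w) * Real.log (s w)| = _
            rw [abs_mul, abs_of_nonneg (hU.nn _)]
          simp only [h2]
          rw [integral_mul_const]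
          change A w * |Real.log (s w)| = _
          rw [← abs_of_nonneg (hA.nn w), ← abs_mul, hAl, abs_neg, abs_mul, abs_of_pos hM]
        rw [h1]
        exact hent.abs.const_mul M
    have hae1 : ∀ᵐ x : G, Integrable (fun w => F (x, w)) := hF.prod_right_ae
    have hae2 : ∀ᵐ x : G, ∀ᵐ w : H, s w = 0 → U (x, w) = 0 := by
      have hset : MeasurableSet {p : G × H | s p.2 = 0 → U (p.1, p.2) = 0} := by
        have e1 : MeasurableSet {p : G × H | s p.2 = 0} :=
          (hs.meas.comp measurable_snd) (measurableSet_singleton 0)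
        have e2 : MeasurableSet {p : G × H | U (p.1, p.2) = 0} :=
          hU.meas (measurableSet_singleton 0)
        have e3 : {p : G × H | s p.2 = 0 → U (p.1, p.2) = 0} =
            {p : G × H | s p.2 = 0}ᶜ ∪ {p : G × H | U (p.1, p.2) = 0} := by
          ext p
          simp only [Set.mem_ofPred_eq, Set.mem_union, Set.mem_compl_iff]
          tauto
        rw [e3]
        exact e1.compl.union e2
      rw [Measure.ae_ae_comm hset]
      refine Eventually.of_forall fun w => ?_
      by_cases hw : s w = 0
      · have h1 : ∫ x, U (x, w) = 0 := by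
          have h2 := hAs w
          rw [hw, mul_zero] at h2
          exact h2
        have h3 := (integral_eq_zero_iff_of_nonneg (fun x => (hS.nn (w, x)))
          (bdc_int (bdc_slice hS w))).1 h1
        filter_upwards [h3] with x hx _
        exact hx
      · exact Eventually.of_forall fun x h => absurd h hw
    have hle : ∀ᵐ x : G, KK (fun w => U (x, w)) ≤ -∫ w, F (x, w) := by
      filter_upwards [hae1, hae2] with x h1 h2
      exact gibbs (fun w => U (x, w)) s (fun w => hU.nn _) hs.nn (bdc_int (bdc_slice hU x))
        (bdc_int hs) hs1.le (bdc_ent (bdc_slice hU x)) h1 h2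
    have h1 : ∫ x, KK (fun w => U (x, w)) ≤ ∫ x, -∫ w, F (x, w) :=
      integral_mono_ae (chain hU).1 hF.integral_prod_left.neg hle
    refine h1.trans (le_of_eq ?_)
    rw [integral_neg, integral_integral_swap (f := fun x w => F (x, w)) hF]
    simp only [hinner, hAl]
    rw [integral_neg, neg_neg, integral_const_mul]
    unfold KK
    have h2 : ∀ w, Real.negMulLog (A w) = M * Real.negMulLog (s w) + s w * Real.negMulLog M := by
      intro w
      rw [hAs, mul_comm M (s w), Real.negMulLog_mul]
    simp only [h2]
    rw [integral_add (hent.const_mul M) ((bdc_int hs).mul_const _), integral_const_mul,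
      integral_mul_const, hs1, one_mul, ← hMdef]
    ring

end Pool.Agent.EPS
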